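import Mathlib
import Pool.Agent.R465.KL
set_option autoImplicit false

/-!
# Infinitely many deficient KL-primitive numbers

For squarefree `n = ∏_{p ∈ s} p` one has `KL(n) = σ(n) (∑_{p ∈ s} w(p) - log 2)` with
`w(p) = p / (p + 1) log (p / (p - 1))`.  Let `q₀ ≥ 23`; take `2` and the primes `q₀, q₁, …` until the
sum of the weights is at least `log 2`, and a minimal subset `t` of these primes such that the sum of
the weights is still at least `log 2`.  Then `2 ∈ t`, the product `n` of the elements of `t` is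
KL-primitive, and `∑_{p ∈ t} w(p) < log 2 + 1 / 22`.  Since `log (1 + 1 / p) ≤ w(p)`, and
`w(2) - log (3 / 2)` is larger than `1 / 22`, `n` is deficient.
-/

namespace Pool.Agent.Results.MP_8dd099_nt.InfinitelyMany
open Finset

/-- `KL(n) = ∑_{d ∣ n} d log (d / (2 φ(d)))`, with the natural logarithm -/
noncomputable def KL (n : ℕ) : ℝ :=
  ∑ d ∈ n.divisors, (d : ℝ) * Real.log ((d : ℝ) / (2 * (Nat.totient d : ℝ)))

/-- `n` is KL-primitive: `n > 0`, `KL(n) ≥ 0`, and `KL(d) < 0` for every divisor `d < n` of `n` -/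
def KLPrimitive (n : ℕ) : Prop := 0 < n ∧ 0 ≤ KL n ∧ ∀ d, d ∣ n → d < n → KL d < 0

/-- `n` is deficient: `n > 0` and `σ(n) < 2 n` -/
def Deficient (n : ℕ) : Prop := 0 < n ∧ ∑ d ∈ n.divisors, d < 2 * n

open Pool.Agent.R465.KL (w sg)

theorem w_two : w 2 = 2 / 3 * Real.log 2 := by
  unfold w; norm_num

theorem prod_inj {s t : Finset ℕ} (hs : ∀ p ∈ s, p.Prime) (ht : ∀ p ∈ t, p.Prime)
    (h : ∏ p ∈ s, p = ∏ p ∈ t, p) : s = t := by
  rw [← Nat.primeFactors_prod hs, ← Nat.primeFactors_prod ht, h]

/-- a divisor of a product of distinct primes is the product of a subset -/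
theorem exists_subset {s : Finset ℕ} (hs : ∀ p ∈ s, p.Prime) {d : ℕ} (hd : d ∣ ∏ p ∈ s, p) :
    ∃ t ⊆ s, d = ∏ p ∈ t, p := by
  have hsq : Squarefree (∏ p ∈ s, p) := by
    refine Finset.squarefree_prod_of_pairwise_isCoprime ?_ ?_
    · intro p hp q hq hpq
      rw [Function.onFun]
      exact Nat.coprime_iff_isRelPrime.1 ((Nat.coprime_primes (hs p hp) (hs q hq)).2 hpq)
    · intro p hp
      exact (hs p hp).prime.irreducible.squarefree
  have hsqd : Squarefree d := hsq.squarefree_of_dvd hd
  have hpos : ∏ p ∈ s, p ≠ 0 := (Finset.prod_pos fun q hq => (hs q hq).pos).ne'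
  refine ⟨d.primeFactors, ?_, (Nat.prod_primeFactors_of_squarefree hsqd).symm⟩
  rw [← Nat.primeFactors_prod hs]
  exact Nat.primeFactors_mono hd hpos

theorem main (q₀ : ℕ) (hq₀ : 22 ≤ q₀) : ∃ n, q₀ < n ∧ Deficient n ∧ KLPrimitive n := by
  classical
  obtain ⟨X₀, hX₀⟩ := Pool.Agent.R465.exists_sum_gt q₀ (2 * Real.log 2)
  set S : ℕ → Finset ℕ := fun X => insert 2 (Pool.Agent.R465.prs q₀ X) with hS
  have h2 : ∀ X, 2 ∉ Pool.Agent.R465.prs q₀ X := by
    intro X h
    have := (Pool.Agent.R465.mem_prs.1 h).2.2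
    omega
  have hSp : ∀ X, ∀ p ∈ S X, p.Prime := by
    intro X p hp
    rw [hS] at hp
    simp only [Finset.mem_insert] at hp
    rcases hp with rfl | hp
    · exact Nat.prime_two
    · exact (Pool.Agent.R465.mem_prs.1 hp).2.1
  have hlog2 : 0 < Real.log 2 := Real.log_pos (by norm_num)
  have hex : ∃ X, Real.log 2 ≤ ∑ p ∈ S X, w p := by
    refine ⟨X₀, ?_⟩
    have h1 : ∑ p ∈ Pool.Agent.R465.prs q₀ X₀, w p ≤ ∑ p ∈ S X₀, w p := by
      refine Finset.sum_le_sum_of_subset_of_nonneg (Finset.subset_insert _ _) ?_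
      intro p hp _
      exact Pool.Agent.R465.KL.w_nonneg (hSp X₀ p hp).two_le
    have h3 : 1 / 2 * ∑ p ∈ Pool.Agent.R465.prs q₀ X₀, (1 : ℝ) / p ≤
        ∑ p ∈ Pool.Agent.R465.prs q₀ X₀, w p := by
      rw [Finset.mul_sum]
      exact Finset.sum_le_sum fun p hp =>
        Pool.Agent.R465.KL.le_w (Pool.Agent.R465.mem_prs.1 hp).2.1.two_le
    linarith
  set X := Nat.find hex with hX
  have hX1 : Real.log 2 ≤ ∑ p ∈ S X, w p := Nat.find_spec hex
  have hX2 : ∀ Y < X, ∑ p ∈ S Y, w p < Real.log 2 := fun Y hY => by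
    have := Nat.find_min hex hY
    push Not at this
    exact this
  have hX0 : 0 < X := by
    rcases Nat.eq_zero_or_pos X with h | h
    · exfalso
      rw [h] at hX1
      have : S 0 = {2} := by
        rw [hS]
        have : Pool.Agent.R465.prs q₀ 0 = ∅ := by
          unfold Pool.Agent.R465.prs; simp
        simp only [this]
        rfl
      rw [this, Finset.sum_singleton, w_two] at hX1
      linarith
    · exact h
  -- the primes in `S X` without `2` have weight less than `log 2`
  have hbig : ∑ p ∈ Pool.Agent.R465.prs q₀ X, w p < Real.log 2 := by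
    have h1 := hX2 (X - 1) (by omega)
    have h3 : ∑ p ∈ Pool.Agent.R465.prs q₀ X, w p ≤
        ∑ p ∈ Pool.Agent.R465.prs q₀ (X - 1), w p + 1 / 22 := by
      by_cases hmem : X - 1 ∈ Pool.Agent.R465.prs q₀ X
      · have h4 : Pool.Agent.R465.prs q₀ X ⊆ insert (X - 1) (Pool.Agent.R465.prs q₀ (X - 1)) := by
          intro p hp
          rw [Pool.Agent.R465.mem_prs] at hp
          rw [Finset.mem_insert, Pool.Agent.R465.mem_prs]
          by_cases h : p = X - 1
          · left; exact h
          · right; exact ⟨by omega, hp.2⟩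
        have h5 : X - 1 ∉ Pool.Agent.R465.prs q₀ (X - 1) := by
          intro h
          rw [Pool.Agent.R465.mem_prs] at h
          omega
        have h6 := (Pool.Agent.R465.mem_prs.1 hmem)
        have h7 : w (X - 1) ≤ 1 / 22 := by
          refine (Pool.Agent.R465.KL.w_le h6.2.1.two_le).trans ?_
          have : (23 : ℝ) ≤ ((X - 1 : ℕ) : ℝ) := by exact_mod_cast (by omega : 23 ≤ X - 1)
          exact one_div_le_one_div_of_le (by norm_num) (by linarith)
        calc ∑ p ∈ Pool.Agent.R465.prs q₀ X, w p ≤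
            ∑ p ∈ insert (X - 1) (Pool.Agent.R465.prs q₀ (X - 1)), w p := by
              refine Finset.sum_le_sum_of_subset_of_nonneg h4 ?_
              intro p hp _
              rw [Finset.mem_insert] at hp
              rcases hp with rfl | hp
              · exact Pool.Agent.R465.KL.w_nonneg h6.2.1.two_le
              · exact Pool.Agent.R465.KL.w_nonneg (Pool.Agent.R465.mem_prs.1 hp).2.1.two_le
          _ ≤ _ := by rw [Finset.sum_insert h5]; linarith
      · have h4 : Pool.Agent.R465.prs q₀ X ⊆ Pool.Agent.R465.prs q₀ (X - 1) := by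
          intro p hp
          have hp' := Pool.Agent.R465.mem_prs.1 hp
          rw [Pool.Agent.R465.mem_prs]
          refine ⟨?_, hp'.2⟩
          rcases Nat.lt_or_ge p (X - 1) with h | h
          · exact h
          · exfalso
            have : p = X - 1 := by omega
            exact hmem (this ▸ hp)
        have := Finset.sum_le_sum_of_subset_of_nonneg (f := w) h4 (fun p hp _ =>
          Pool.Agent.R465.KL.w_nonneg (Pool.Agent.R465.mem_prs.1 hp).2.1.two_le)
        linarith
    have h4 : ∑ p ∈ S (X - 1), w p = w 2 + ∑ p ∈ Pool.Agent.R465.prs q₀ (X - 1), w p := by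
      rw [hS]
      simp only
      rw [Finset.sum_insert (h2 _)]
    rw [h4, w_two] at h1
    have := Real.log_two_gt_d9
    linarith
  -- a minimal subset
  obtain ⟨t, htS, htmin⟩ := exists_minimal_le_of_wellFoundedLT
    (fun u : Finset ℕ => Real.log 2 ≤ ∑ p ∈ u, w p) (S X) hX1
  have ht1 : Real.log 2 ≤ ∑ p ∈ t, w p := htmin.prop
  have htp : ∀ p ∈ t, p.Prime := fun p hp => hSp X p (htS hp)
  have ht2 : ∀ u, u ⊆ t → u ≠ t → ∑ p ∈ u, w p < Real.log 2 := by
    intro u hu hne
    by_contra hcon
    push Not at hcon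
    exact hne (Finset.Subset.antisymm hu (htmin.le_of_le hcon hu))
  have hwn : ∀ p ∈ t, 0 ≤ w p := fun p hp => Pool.Agent.R465.KL.w_nonneg (htp p hp).two_le
  have h2t : 2 ∈ t := by
    by_contra h
    have h1 : t ⊆ Pool.Agent.R465.prs q₀ X := by
      intro p hp
      have := htS hp
      rw [hS] at this
      simp only [Finset.mem_insert] at this
      rcases this with rfl | h'
      · exact absurd hp h
      · exact h'
    have := Finset.sum_le_sum_of_subset_of_nonneg (f := w) h1 (fun p hp _ =>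
      Pool.Agent.R465.KL.w_nonneg (Pool.Agent.R465.mem_prs.1 hp).2.1.two_le)
    linarith
  have ht3 : ∃ p ∈ t, p ≠ 2 := by
    by_contra hcon
    push Not at hcon
    have : t ⊆ {2} := fun p hp => by rw [Finset.mem_singleton]; exact hcon p hp
    have h3 := Finset.sum_le_sum_of_subset_of_nonneg (f := w) this (fun p hp _ => by
      rw [Finset.mem_singleton] at hp; subst hp; exact Pool.Agent.R465.KL.w_nonneg le_rfl)
    rw [Finset.sum_singleton, w_two] at h3
    linarith
  obtain ⟨r, hr, hr2⟩ := ht3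
  have hrq : q₀ < r := by
    have := htS hr
    rw [hS] at this
    simp only [Finset.mem_insert] at this
    rcases this with h' | h'
    · exact absurd h' hr2
    · exact (Pool.Agent.R465.mem_prs.1 h').2.2
  have hsum : ∑ p ∈ t, w p < Real.log 2 + 1 / 22 := by
    have h1 := ht2 (t.erase r) (Finset.erase_subset _ _) (fun h => by
      have := Finset.notMem_erase r t
      rw [h] at this
      exact this hr)
    have h3 : w r ≤ 1 / 22 := by
      refine (Pool.Agent.R465.KL.w_le (htp r hr).two_le).trans ?_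
      have : (23 : ℝ) ≤ (r : ℝ) := by exact_mod_cast (by omega : 23 ≤ r)
      exact one_div_le_one_div_of_le (by norm_num) (by linarith)
    rw [← Finset.add_sum_erase t w hr]
    linarith
  set n := ∏ p ∈ t, p with hn
  have hn0 : 0 < n := Finset.prod_pos fun q hq => (htp q hq).pos
  have hKL : ∀ u, u ⊆ t → KL (∏ p ∈ u, p) = sg (∏ p ∈ u, p) * (∑ p ∈ u, w p - Real.log 2) :=
    fun u hu => Pool.Agent.R465.KL.KL_prod u (fun p hp => htp p (hu hp))
  refine ⟨n, ?_, ⟨hn0, ?_⟩, hn0, ?_, ?_⟩
  · refine lt_of_lt_of_le hrq (Nat.le_of_dvd hn0 (Finset.dvd_prod_of_mem _ hr))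
  · -- deficient
    change sg n < 2 * n
    have h1 : (sg n : ℝ) = n * ∏ p ∈ t, (((p : ℝ) + 1) / p) := by
      rw [hn, Pool.Agent.R465.KL.sg_prod t htp]
      push_cast
      rw [← Finset.prod_mul_distrib]
      refine Finset.prod_congr rfl fun p hp => ?_
      have : (p : ℝ) ≠ 0 := by exact_mod_cast (htp p hp).ne_zero
      field_simp
    have h3 : Real.log (∏ p ∈ t, (((p : ℝ) + 1) / p)) < Real.log 2 := by
      rw [Real.log_prod (fun p hp => by
        have : (0 : ℝ) < p := by exact_mod_cast (htp p hp).pos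
        positivity)]
      rw [← Finset.add_sum_erase t _ h2t]
      have h4 : ∑ p ∈ t.erase 2, Real.log (((p : ℝ) + 1) / p) ≤ ∑ p ∈ t.erase 2, w p :=
        Finset.sum_le_sum fun p hp =>
          Pool.Agent.R465.KL.log_le_w (htp p (Finset.mem_of_mem_erase hp)).two_le
      have h5 : ∑ p ∈ t, w p = w 2 + ∑ p ∈ t.erase 2, w p := (Finset.add_sum_erase t w h2t).symm
      rw [w_two] at h5
      have h6 : Real.log ((((2 : ℕ) : ℝ) + 1) / ((2 : ℕ) : ℝ)) < 2 / 3 * Real.log 2 - 1 / 22 := by
        have h7 : Real.log ((((2 : ℕ) : ℝ) + 1) / ((2 : ℕ) : ℝ)) =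
            1 / 3 * (2 * Real.log 2 - Real.log (32 / 27)) := by
          have h8 : ((((2 : ℕ) : ℝ) + 1) / ((2 : ℕ) : ℝ)) ^ 3 = 2 ^ 2 / (32 / 27) := by norm_num
          have h9 := congrArg Real.log h8
          rw [Real.log_pow, Real.log_div (x := 2 ^ 2) (by norm_num) (by norm_num),
            Real.log_pow] at h9
          push_cast at h9 ⊢
          linarith
        rw [h7]
        have h8 := Real.one_sub_inv_le_log_of_pos (show (0 : ℝ) < 32 / 27 by norm_num)
        norm_num at h8 ⊢
        linarith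
      linarith
    have h4 : ∏ p ∈ t, (((p : ℝ) + 1) / p) < 2 := by
      have hpos : 0 < ∏ p ∈ t, (((p : ℝ) + 1) / p) := Finset.prod_pos fun p hp => by
        have : (0 : ℝ) < p := by exact_mod_cast (htp p hp).pos
        positivity
      exact (Real.log_lt_log_iff hpos (by norm_num)).1 h3
    have h5 : (sg n : ℝ) < 2 * n := by
      rw [h1]
      have : (0 : ℝ) < n := by exact_mod_cast hn0
      nlinarith
    exact_mod_cast h5
  · rw [hn, hKL t (Finset.Subset.refl _)]
    exact mul_nonneg (Nat.cast_nonneg _) (by linarith)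
  · intro d hd hdn
    obtain ⟨u, hu, rfl⟩ := exists_subset htp hd
    rw [hKL u hu]
    have h1 := ht2 u hu (by
      rintro rfl
      exact absurd hdn (lt_irrefl _))
    have h3 : 0 < sg (∏ p ∈ u, p) := Pool.Agent.R465.KL.sg_pos
      (Finset.prod_pos fun q hq => (htp q (hu hq)).pos)
    have h4 : (0 : ℝ) < sg (∏ p ∈ u, p) := by exact_mod_cast h3
    exact mul_neg_of_pos_of_neg h4 (by linarith)

/-- **Main theorem.** There are infinitely many deficient KL-primitive numbers. -/
theorem result : {n : ℕ | Deficient n ∧ KLPrimitive n}.Infinite := by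
  rw [Set.infinite_iff_exists_gt]
  intro a
  obtain ⟨n, hn, h1, h2⟩ := main (max a 22) (le_max_right _ _)
  exact ⟨n, ⟨h1, h2⟩, lt_of_le_of_lt (le_max_left _ _) hn⟩

end Pool.Agent.Results.MP_8dd099_nt.InfinitelyMany
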